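import Pool.Agent.H1.G3.Upper

set_option autoImplicit false

namespace Pool.Agent.Results.MP_727445_co.PowerConjectureFails

open Pool.Agent.H1.G3

/-- `g_3(k) = 3^(k-1)` holds exactly for `k = 1, 2`; the minimum is attained; `g_3(3) = 8`;
`g_3(k) ≤ 7923881 * 3^(k-16) < 0.5523 * 3^(k-1)` for `k ≥ 16`; and the sharp second moment
inequality for all progression-free sequences, with the resulting lower bound for `g_3`. -/
theorem result :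
    (∀ k : ℕ, 1 ≤ k → (g 3 k = 3 ^ (k - 1) ↔ k ≤ 2)) ∧
    (∀ k : ℕ, 1 ≤ k → Attains 3 k (g 3 k)) ∧
    g 3 3 = 8 ∧
    (∀ k : ℕ, 3 ≤ k → g 3 k ≤ 8 * 3 ^ (k - 3)) ∧
    (∀ k : ℕ, 16 ≤ k → g 3 k ≤ 7923881 * 3 ^ (k - 16)) ∧
    (∀ (k : ℕ) (b : Fin k → ℕ), StrictMono b → (∀ i, 0 < b i) → ¬ HasAP 3 (SubsetSums b) →
      9 ^ k ≤ 8 * ∑ i, (b i) ^ 2 + 1) ∧
    (∀ k : ℕ, 1 ≤ k → 9 ^ k ≤ 8 * k * (g 3 k) ^ 2 + 1) :=
  ⟨g_eq_iff, attains_g, g_three, g_le_three, g_le_sixteen,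
    fun _ _ h1 h2 h3 => sq_bound_of_noAP h1 h2 h3, g_lower⟩

end Pool.Agent.Results.MP_727445_co.PowerConjectureFails
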